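import Pool.Agent.H.MP_141b7f_lc.Main

set_option autoImplicit false

namespace Pool.Agent.Results.MP_68d169_lc.BaireNeBorel
open Pool.Agent.H.MP_141b7f_lc

theorem result : ∀ n : ℕ, 2 ≤ n →
    ∃ (W : Finset (Fin n → ℤ)) (k : ℕ) (A : Set ({w // w ∈ W} → Fin k)),
      (∀ (X : Type) [TopologicalSpace X] [PolishSpace X] [MeasurableSpace X] [BorelSpace X]
        [AddAction (Fin n → ℤ) X],
        (∀ g : Fin n → ℤ, Measurable fun x : X => g +ᵥ x) →
        (∀ (g : Fin n → ℤ) (x : X), g +ᵥ x = x → g = 0) →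
        ∃ f : X → Fin k, (∀ i, BaireMeasurableSet (f ⁻¹' {i})) ∧
          ∀ x : X, (fun w : {w // w ∈ W} => f (w.1 +ᵥ x)) ∈ A) ∧
      ¬ (∀ (X : Type) [MeasurableSpace X] [StandardBorelSpace X] [AddAction (Fin n → ℤ) X],
        (∀ g : Fin n → ℤ, Measurable fun x : X => g +ᵥ x) →
        (∀ (g : Fin n → ℤ) (x : X), g +ᵥ x = x → g = 0) →
        ∃ f : X → Fin k, Measurable f ∧
          ∀ x : X, (fun w : {w // w ∈ W} => f (w.1 +ᵥ x)) ∈ A) := by
  intro n hn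
  obtain ⟨i0, i1, hi⟩ : ∃ i0 i1 : Fin n, i0 ≠ i1 := ⟨⟨0, by omega⟩, ⟨1, by omega⟩, by simp⟩
  have hw : ∀ g : Fin n → ℤ, (∀ i, |g i| ≤ 4) → g ∈ (box_fin n 4).toFinset := fun g hg => by
    rw [Set.Finite.mem_toFinset]
    exact hg
  refine ⟨(box_fin n 4).toFinset, kk, Pat i0 i1 fun g => g ∈ (box_fin n 4).toFinset, ?_,
    fun h => ?_⟩
  · intro X _ _ _ _ _ hm hf
    obtain ⟨c, h1, h2⟩ := baire_pat' hi hw (fun g (x : X) => g +ᵥ x) (zero_vadd _) add_vadd hm hf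
    exact ⟨c, fun i => h1 _, h2⟩
  · letI : AddAction (Fin n → ℤ) UnitAddCircle :=
      { vadd := rot, zero_vadd := rot_zero, add_vadd := rot_add }
    obtain ⟨c, h1, h2⟩ := h UnitAddCircle (fun g => (rot_cont g).measurable) rot_free
    exact rot_no hi hw c h1 (Filter.Eventually.of_forall h2)

end Pool.Agent.Results.MP_68d169_lc.BaireNeBorel
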